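import Pool.Agent.Q57.QM.Stm
import Pool.Agent.Q210.HX.Hcurve

/-!
# Project QM (helper57): job C2, charts of an ideal of the plane
-/

set_option autoImplicit false

namespace Pool.Agent.Q210.QM

open MvPolynomial Pool.Agent.Q57.QM
open Pool.Agent.Q57.MC (Chart Same frac)

section pol

variable {n : ℕ}

theorem const_of_pderiv {p : MvPolynomial (Fin n) ℂ} (h : ∀ i, pderiv i p = 0) :
    p = C (coeff 0 p) := by
  classical
  ext m
  rw [coeff_C]
  by_cases hm : m = 0
  · rw [if_pos hm.symm, hm]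
  · rw [if_neg (Ne.symm hm)]
    obtain ⟨i, hi⟩ : ∃ i, m i ≠ 0 := by
      by_contra hcon
      push Not at hcon
      exact hm (Finsupp.ext hcon)
    have h1 := coeff_pderiv (i := i) p (m - Finsupp.single i 1)
    have h2 : m - Finsupp.single i 1 + Finsupp.single i 1 = m := by
      refine tsub_add_cancel_of_le ?_
      rw [Finsupp.single_le_iff]
      omega
    rw [h i, coeff_zero, h2] at h1
    rcases mul_eq_zero.1 h1.symm with h3 | h3
    · exact h3
    · exact absurd h3 (Nat.cast_add_one_ne_zero _)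

theorem not_dvd_pderiv {Q : MvPolynomial (Fin n) ℂ} {r : Fin n} (hne : pderiv r Q ≠ 0) :
    ¬ Q ∣ pderiv r Q := by
  classical
  intro h
  obtain ⟨G, hG⟩ := h
  have hQ : Q ≠ 0 := by
    rintro rfl
    rw [map_zero] at hne
    exact hne rfl
  have hG0 : G ≠ 0 := by
    rintro rfl
    rw [mul_zero] at hG
    exact hne hG
  have h1 := congrArg (MvPolynomial.degreeOf r) hG
  rw [MvPolynomial.degreeOf_mul_eq hQ hG0] at h1
  have hm : ∀ m ∈ (MvPolynomial.pderiv r Q).support, m r + 1 ≤ MvPolynomial.degreeOf r Q := by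
    intro m hm
    rw [MvPolynomial.mem_support_iff, MvPolynomial.coeff_pderiv] at hm
    have h2 : m + Finsupp.single r 1 ∈ Q.support :=
      MvPolynomial.mem_support_iff.2 (left_ne_zero_of_mul hm)
    have h3 := MvPolynomial.monomial_le_degreeOf r h2
    simpa using h3
  have h4 : MvPolynomial.degreeOf r (MvPolynomial.pderiv r Q) < MvPolynomial.degreeOf r Q := by
    obtain ⟨m, hm'⟩ := MvPolynomial.support_nonempty.2 hne
    have h5 : 0 < MvPolynomial.degreeOf r Q := by
      have := hm m hm'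
      omega
    rw [MvPolynomial.degreeOf_lt_iff h5]
    intro m hm'
    have := hm m hm'
    omega
  omega

end pol

/-- relatively prime polynomials in two variables have finitely many common zeros -/
theorem fin_two {p q : MvPolynomial (Fin 2) ℂ} (h : IsRelPrime p q) :
    {P : Fin 2 → ℂ | eval P p = 0 ∧ eval P q = 0}.Finite := by
  have h1 := Pool.Agent.Q210.HX.finite_zeros h
  refine (h1.image fun z : ℂ × ℂ => ![z.1, z.2]).subset ?_
  rintro P ⟨hp, hq⟩
  have hP : (![P 0, P 1] : Fin 2 → ℂ) = P := by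
    funext i
    fin_cases i
    · rfl
    · rfl
  refine ⟨(P 0, P 1), ⟨?_, ?_⟩, hP⟩
  · change aeval ![P 0, P 1] p = 0
    rw [hP, ← hp]
    rfl
  · change aeval ![P 0, P 1] q = 0
    rw [hP, ← hq]
    rfl

/-- a family without a common factor has finitely many common zeros -/
theorem fin_fam {ι : Type} (f : ι → MvPolynomial (Fin 2) ℂ)
    (h : ∀ d, (∀ j, d ∣ f j) → IsUnit d) : {P : Fin 2 → ℂ | ∀ j, eval P (f j) = 0}.Finite := by
  classical
  obtain ⟨j0, hj0⟩ : ∃ j, f j ≠ 0 := by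
    by_contra hcon
    push Not at hcon
    exact not_isUnit_zero (h 0 fun j => by rw [hcon j])
  have key : ∀ p ∈ UniqueFactorizationMonoid.factors (f j0),
      {P : Fin 2 → ℂ | eval P p = 0 ∧ ∀ j, eval P (f j) = 0}.Finite := by
    intro p hp
    have hirr := UniqueFactorizationMonoid.irreducible_of_factor p hp
    obtain ⟨j, hj⟩ : ∃ j, ¬ p ∣ f j := by
      by_contra hcon
      push Not at hcon
      exact hirr.not_isUnit (h p hcon)
    refine (fin_two (hirr.isRelPrime_iff_not_dvd.2 hj)).subset ?_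
    rintro P ⟨h1, h2⟩
    exact ⟨h1, h2 j⟩
  have hfin : (⋃ p ∈ (UniqueFactorizationMonoid.factors (f j0)).toFinset,
      {P : Fin 2 → ℂ | eval P p = 0 ∧ ∀ j, eval P (f j) = 0}).Finite :=
    Set.Finite.biUnion (Finset.finite_toSet _) fun p hp => key p (Multiset.mem_toFinset.1 hp)
  refine hfin.subset ?_
  intro P hP
  obtain ⟨u, hu⟩ := UniqueFactorizationMonoid.factors_prod hj0
  have h1 : eval P (UniqueFactorizationMonoid.factors (f j0)).prod = 0 := by
    have h2 := congrArg (eval P) hu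
    rw [map_mul, hP j0] at h2
    have h3 : eval P (u : MvPolynomial (Fin 2) ℂ) ≠ 0 := (u.isUnit.map (eval P)).ne_zero
    exact (mul_eq_zero.1 h2).resolve_right h3
  rw [map_multiset_prod, Multiset.prod_eq_zero_iff, Multiset.mem_map] at h1
  obtain ⟨p, hp, hpP⟩ := h1
  exact Set.mem_biUnion (Multiset.mem_toFinset.2 hp) ⟨hpP, hP⟩

/-- an irreducible curve has finitely many singular points -/
theorem fin_sing {p : MvPolynomial (Fin 2) ℂ} (hp : Irreducible p) :
    {P : Fin 2 → ℂ | eval P p = 0 ∧ ∀ i, eval P (pderiv i p) = 0}.Finite := by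
  obtain ⟨i, hi⟩ : ∃ i, pderiv i p ≠ 0 := by
    by_contra hcon
    push Not at hcon
    have h1 := const_of_pderiv hcon
    have h2 : coeff 0 p ≠ 0 := by
      intro h
      rw [h, C_0] at h1
      exact hp.ne_zero h1
    exact hp.not_isUnit (by rw [h1]; exact (isUnit_iff_ne_zero.2 h2).map C)
  refine (fin_two (hp.isRelPrime_iff_not_dvd.2 (not_dvd_pderiv hi))).subset ?_
  rintro P ⟨h1, h2⟩
  exact ⟨h1, h2 i⟩

section charts

variable {r : ℕ} (f : Fin r → MvPolynomial (Fin 2) ℂ)

/-- the chart at a point -/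
noncomputable def ptC (P : Fin 2 → ℂ) : Chart (Fin 2) where
  c := 2
  r := r
  a := fun t => X t - C (P t)
  w := 1
  s := fun t => t
  h := fun j => aeval (fun t => X t + C (P t) : Fin 2 → MvPolynomial (Fin 2) ℂ) (f j)

theorem invSelf_one {A : Type} [CommRing A] :
    IsLocalization.Away.invSelf (S := Localization.Away (1 : A)) (1 : A) = 1 := by
  have h := IsLocalization.Away.mul_invSelf (S := Localization.Away (1 : A)) (1 : A)
  rwa [map_one, one_mul] at h

theorem frac_one {σ : Type} {c : ℕ} (a : Fin c → MvPolynomial σ ℂ) (q : MvPolynomial (Fin c) ℂ) :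
    frac a 1 q = algebraMap (MvPolynomial σ ℂ) (Localization.Away (1 : MvPolynomial σ ℂ))
      (aeval a q) := by
  unfold frac
  rw [← aeval_algebraMap_apply]
  congr 2
  funext t
  rw [invSelf_one, mul_one]
  rfl

theorem ptC_fits (P : Fin 2 → ℂ) : (ptC f P).Fits f := by
  change Ideal.span (Set.range fun j => algebraMap (MvPolynomial (Fin 2) ℂ)
    (Localization.Away (1 : MvPolynomial (Fin 2) ℂ)) (f j)) = Ideal.span (Set.range fun k =>
      frac (fun t : Fin 2 => (X t - C (P t) : MvPolynomial (Fin 2) ℂ)) 1 (aeval (fun t => X t +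
        C (P t) : Fin 2 → MvPolynomial (Fin 2) ℂ) (f k)))
  congr 2
  funext j
  rw [frac_one]
  congr 1
  rw [← AlgHom.comp_apply]
  have h1 : (aeval fun t : Fin 2 => (X t - C (P t) : MvPolynomial (Fin 2) ℂ)).comp
      (aeval (fun t => X t + C (P t) : Fin 2 → MvPolynomial (Fin 2) ℂ)) =
      AlgHom.id ℂ (MvPolynomial (Fin 2) ℂ) := by
    apply MvPolynomial.algHom_ext
    intro i
    rw [AlgHom.comp_apply, aeval_X, map_add, aeval_X, aeval_C]
    change X i - C (P i) + C (P i) = X i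
    ring
  rw [h1]
  rfl

theorem ptC_mem (P : Fin 2 → ℂ) : (ptC f P).Mem P := by
  refine ⟨?_, ?_, ?_⟩
  · change eval P (1 : MvPolynomial (Fin 2) ℂ) ≠ 0
    rw [map_one]
    exact one_ne_zero
  · have h1 : ∀ t : Fin 2, eval P (X t - C (P t) : MvPolynomial (Fin 2) ℂ) = 0 := by
      intro t
      rw [map_sub, eval_X, eval_C, sub_self]
    exact h1
  · have h1 : (Matrix.of fun u t : Fin 2 => eval P (pderiv u (X t - C (P t) :
        MvPolynomial (Fin 2) ℂ))) = 1 := by
      ext u t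
      rw [Matrix.of_apply, map_sub, pderiv_C, sub_zero, Matrix.one_apply]
      by_cases h : u = t
      · subst h
        rw [pderiv_X_self, map_one, if_pos rfl]
      · rw [pderiv_X_of_ne (Ne.symm h), map_zero, if_neg h]
    change (Matrix.of fun u t : Fin 2 => eval P (pderiv u (X t - C (P t) :
        MvPolynomial (Fin 2) ℂ))).det ≠ 0
    rw [h1, Matrix.det_one]
    exact one_ne_zero

theorem ptC_ne (P : Fin 2 → ℂ) (hf : ∃ j, f j ≠ 0) : ∃ j, (ptC f P).h j ≠ 0 := by
  obtain ⟨j, hj⟩ := hf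
  refine ⟨j, fun h0 => hj ?_⟩
  have h1 : (aeval fun t : Fin 2 => (X t - C (P t) : MvPolynomial (Fin 2) ℂ)).comp
      (aeval (fun t => X t + C (P t) : Fin 2 → MvPolynomial (Fin 2) ℂ)) =
      AlgHom.id ℂ (MvPolynomial (Fin 2) ℂ) := by
    apply MvPolynomial.algHom_ext
    intro i
    rw [AlgHom.comp_apply, aeval_X, map_add, aeval_X, aeval_C]
    change X i - C (P i) + C (P i) = X i
    ring
  have h2 := congrArg (fun φ => φ (f j)) h1
  simp only [AlgHom.comp_apply, AlgHom.id_apply] at h2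
  rw [← h2]
  have h3 : aeval (fun t => X t + C (P t) : Fin 2 → MvPolynomial (Fin 2) ℂ) (f j) = 0 := h0
  rw [h3, map_zero]

/-- the chart of a power of a curve -/
noncomputable def cvC (p w : MvPolynomial (Fin 2) ℂ) (m : ℕ) (s : Fin 2) : Chart (Fin 2) where
  c := 1
  r := 1
  a := fun _ => p
  w := w
  s := fun _ => s
  h := fun _ => X 0 ^ m

theorem cvC_fits {p w : MvPolynomial (Fin 2) ℂ} {m : ℕ} (s : Fin 2)
    (h1 : ∀ j, p ^ m ∣ f j) {j0 : Fin r} {v : MvPolynomial (Fin 2) ℂ} (h2 : f j0 = p ^ m * v)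
    {N : ℕ} (h3 : v ∣ w ^ N) : (cvC p w m s).Fits f := by
  change Ideal.span (Set.range fun j => algebraMap (MvPolynomial (Fin 2) ℂ)
    (Localization.Away w) (f j)) = Ideal.span (Set.range fun _ : Fin 1 =>
      frac (fun _ : Fin 1 => p) w (X 0 ^ m))
  have hwu : IsUnit (algebraMap (MvPolynomial (Fin 2) ℂ) (Localization.Away w) w) :=
    IsLocalization.Away.algebraMap_isUnit w
  have hinv : IsUnit (IsLocalization.Away.invSelf (S := Localization.Away w) w) := by
    have h := IsLocalization.Away.mul_invSelf (S := Localization.Away w) w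
    rw [mul_comm] at h
    exact IsUnit.of_mul_eq_one _ h
  have hvu : IsUnit (algebraMap (MvPolynomial (Fin 2) ℂ) (Localization.Away w) v) := by
    have h4 := map_dvd (algebraMap (MvPolynomial (Fin 2) ℂ) (Localization.Away w)) h3
    rw [map_pow] at h4
    exact isUnit_of_dvd_unit h4 (hwu.pow N)
  have hfr : frac (fun _ : Fin 1 => p) w (X 0 ^ m) =
      algebraMap (MvPolynomial (Fin 2) ℂ) (Localization.Away w) (p ^ m) *
        IsLocalization.Away.invSelf w ^ m := by
    unfold frac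
    rw [map_pow, aeval_X, mul_pow, map_pow]
  have e1 : Ideal.span (Set.range fun _ : Fin 1 => frac (fun _ : Fin 1 => p) w (X 0 ^ m)) =
      Ideal.span {algebraMap (MvPolynomial (Fin 2) ℂ) (Localization.Away w) (p ^ m)} := by
    rw [Set.range_const, hfr, Ideal.span_singleton_mul_right_unit (hinv.pow m)]
  rw [e1]
  apply le_antisymm
  · rw [Ideal.span_le]
    rintro _ ⟨j, rfl⟩
    exact Ideal.mem_span_singleton.2 (map_dvd _ (h1 j))
  · rw [Ideal.span_singleton_le_iff_mem]
    have h5 : algebraMap (MvPolynomial (Fin 2) ℂ) (Localization.Away w) (f j0) ∈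
        Ideal.span (Set.range fun j => algebraMap (MvPolynomial (Fin 2) ℂ)
          (Localization.Away w) (f j)) := Ideal.subset_span ⟨j0, rfl⟩
    rw [h2, map_mul] at h5
    exact (Ideal.mul_unit_mem_iff_mem _ hvu).1 h5

end charts

theorem exists_gcd {r : ℕ} (f : Fin r → MvPolynomial (Fin 2) ℂ) (hf : ∃ j, f j ≠ 0) :
    ∃ (g : MvPolynomial (Fin 2) ℂ) (f' : Fin r → MvPolynomial (Fin 2) ℂ), g ≠ 0 ∧
      (∀ j, f j = g * f' j) ∧ ∀ d, (∀ j, d ∣ f' j) → IsUnit d := by
  classical
  letI i0 : StrongNormalizationMonoid (MvPolynomial (Fin 2) ℂ) :=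
    UniqueFactorizationMonoid.strongNormalizationMonoid
  letI i1 : NormalizedGCDMonoid (MvPolynomial (Fin 2) ℂ) :=
    UniqueFactorizationMonoid.toNormalizedGCDMonoid _
  obtain ⟨j1, hj1⟩ := hf
  obtain ⟨f', hf', hgcd⟩ := Finset.extract_gcd f (s := Finset.univ) ⟨j1, Finset.mem_univ _⟩
  refine ⟨Finset.univ.gcd f, f', ?_, fun j => hf' j (Finset.mem_univ _), ?_⟩
  · intro h
    rw [hf' j1 (Finset.mem_univ _), h, zero_mul] at hj1
    exact hj1 rfl
  · intro d hd
    have h1 : d ∣ Finset.univ.gcd f' := Finset.dvd_gcd fun j _ => hd j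
    rw [hgcd] at h1
    exact isUnit_of_dvd_one h1

theorem exists_fac {g : MvPolynomial (Fin 2) ℂ} (hg : g ≠ 0) :
    ∃ (T : Finset (MvPolynomial (Fin 2) ℂ)) (m : MvPolynomial (Fin 2) ℂ → ℕ)
      (u : (MvPolynomial (Fin 2) ℂ)ˣ), (∀ p ∈ T, Irreducible p) ∧ (∀ p ∈ T, 1 ≤ m p) ∧
      (∀ p ∈ T, ∀ q ∈ T, p ≠ q → IsRelPrime p q) ∧ g = (∏ p ∈ T, p ^ m p) * u := by
  classical
  letI i0 : StrongNormalizationMonoid (MvPolynomial (Fin 2) ℂ) :=
    UniqueFactorizationMonoid.strongNormalizationMonoid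
  obtain ⟨u, hu⟩ := UniqueFactorizationMonoid.prod_normalizedFactors hg
  refine ⟨(UniqueFactorizationMonoid.normalizedFactors g).toFinset,
    fun p => (UniqueFactorizationMonoid.normalizedFactors g).count p, u, ?_, ?_, ?_, ?_⟩
  · intro p hp
    exact UniqueFactorizationMonoid.irreducible_of_normalized_factor p (Multiset.mem_toFinset.1 hp)
  · intro p hp
    exact Multiset.one_le_count_iff_mem.2 (Multiset.mem_toFinset.1 hp)
  · intro p hp q hq hpq
    have h1 := UniqueFactorizationMonoid.irreducible_of_normalized_factor p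
      (Multiset.mem_toFinset.1 hp)
    refine h1.isRelPrime_iff_not_dvd.2 fun h => hpq ?_
    exact UniqueFactorizationMonoid.normalizedFactors_eq_of_dvd g p (Multiset.mem_toFinset.1 hp) q
      (Multiset.mem_toFinset.1 hq) h
  · rw [← Finset.prod_multiset_count, hu]

theorem qm_cvplane : StCvPlane := by
  intro Γ hΓ2 hΓ1 r f hf
  classical
  obtain ⟨g, f', hg0, hf', hcop⟩ := exists_gcd f hf
  obtain ⟨T, m, u, hTi, hTm, hTr, hgT⟩ := exists_fac hg0
  have hB1 := fin_fam f' hcop
  have hB2 : (⋃ x ∈ T.offDiag, {P : Fin 2 → ℂ | eval P x.1 = 0 ∧ eval P x.2 = 0}).Finite := by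
    refine Set.Finite.biUnion (Finset.finite_toSet _) fun x hx => ?_
    obtain ⟨h1, h2, h3⟩ := Finset.mem_offDiag.1 (Finset.mem_coe.1 hx)
    exact fin_two (hTr _ h1 _ h2 h3)
  have hB3 : (⋃ p ∈ T, {P : Fin 2 → ℂ | eval P p = 0 ∧ ∀ i, eval P (pderiv i p) = 0}).Finite :=
    Set.Finite.biUnion (Finset.finite_toSet _) fun p hp => fin_sing (hTi p (Finset.mem_coe.1 hp))
  set B := ((hB1.union hB2).union hB3).toFinset with hB
  refine ⟨(T ×ˢ (Finset.univ : Finset (Fin r)) ×ˢ (Finset.univ : Finset (Fin 2))).image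
    (fun x => cvC x.1 ((∏ q ∈ T.erase x.1, q) * f' x.2.1) (m x.1) x.2.2) ∪ B.image (ptC f), ?_, ?_⟩
  · intro A hA
    rcases Finset.mem_union.1 hA with hA | hA
    · obtain ⟨⟨p, j, s⟩, hx, rfl⟩ := Finset.mem_image.1 hA
      have hpT : p ∈ T := (Finset.mem_product.1 hx).1
      have hprod : ∀ j, f j = p ^ m p * ((∏ q ∈ T.erase p, q ^ m q) * u * f' j) := by
        intro j
        rw [hf' j, hgT, ← Finset.mul_prod_erase T (fun q => q ^ m q) hpT]
        ring
      refine ⟨?_, hΓ1 (m p) (hTm p hpT)⟩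
      refine cvC_fits f s (fun j => ⟨_, hprod j⟩) (hprod j)
        (N := (∑ q ∈ T.erase p, m q) + 1) ?_
      have h1 : (∏ q ∈ T.erase p, q ^ m q) ∣
          ((∏ q ∈ T.erase p, q) * f' j) ^ (∑ q ∈ T.erase p, m q) := by
        rw [← Finset.prod_pow_eq_pow_sum]
        refine Finset.prod_dvd_prod_of_dvd _ _ fun q hq => pow_dvd_pow_of_dvd ?_ _
        exact (Finset.dvd_prod_of_mem (fun q => q) hq).mul_right _
      rw [pow_succ]
      refine mul_dvd_mul ?_ (Dvd.intro_left _ rfl)
      exact (u.isUnit.mul_right_dvd).2 h1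
    · obtain ⟨P, -, rfl⟩ := Finset.mem_image.1 hA
      exact ⟨ptC_fits f P, hΓ2 _ (ptC_ne f P hf)⟩
  · intro P _ hP
    by_cases hPB : P ∈ B
    · exact ⟨ptC f P, Finset.mem_union_right _ (Finset.mem_image_of_mem _ hPB), ptC_mem f P⟩
    · rw [hB, Set.Finite.mem_toFinset] at hPB
      have hn1 : ¬ ∀ j, eval P (f' j) = 0 := fun h => hPB (Or.inl (Or.inl h))
      have hn2 : ∀ p ∈ T, ∀ q ∈ T, p ≠ q → eval P p = 0 → eval P q ≠ 0 := by
        intro p hp q hq hpq h1 h2
        exact hPB (Or.inl (Or.inr (Set.mem_biUnion (x := (p, q))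
          (Finset.mem_coe.2 (Finset.mem_offDiag.2 ⟨hp, hq, hpq⟩)) ⟨h1, h2⟩)))
      have hn3 : ∀ p ∈ T, eval P p = 0 → ∃ i, eval P (pderiv i p) ≠ 0 := by
        intro p hp h1
        by_contra hcon
        push Not at hcon
        exact hPB (Or.inr (Set.mem_biUnion (Finset.mem_coe.2 hp) ⟨h1, hcon⟩))
      push Not at hn1
      obtain ⟨j, hj⟩ := hn1
      have h1 : eval P g = 0 := by
        have h2 := hP j
        rw [hf' j, map_mul] at h2
        exact (mul_eq_zero.1 h2).resolve_right hj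
      rw [hgT, map_mul, map_prod] at h1
      have h3 : eval P (u : MvPolynomial (Fin 2) ℂ) ≠ 0 := (u.isUnit.map (eval P)).ne_zero
      obtain ⟨p, hp, hp0⟩ := Finset.prod_eq_zero_iff.1 ((mul_eq_zero.1 h1).resolve_right h3)
      rw [map_pow] at hp0
      have hp0' : eval P p = 0 := eq_zero_of_pow_eq_zero hp0
      obtain ⟨i, hi⟩ := hn3 p hp hp0'
      have hmem : (p, j, i) ∈ T ×ˢ (Finset.univ : Finset (Fin r)) ×ˢ
          (Finset.univ : Finset (Fin 2)) :=
        Finset.mem_product.2 ⟨hp, Finset.mem_product.2 ⟨Finset.mem_univ _, Finset.mem_univ _⟩⟩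
      refine ⟨_, Finset.mem_union_left _ (Finset.mem_image_of_mem _ hmem), ?_, ?_, ?_⟩
      · change eval P ((∏ q ∈ T.erase p, q) * f' j) ≠ 0
        rw [map_mul, map_prod]
        refine mul_ne_zero (Finset.prod_ne_zero_iff.2 fun q hq => ?_) hj
        have hq' := Finset.mem_erase.1 hq
        exact hn2 p hp q hq'.2 (Ne.symm hq'.1) hp0'
      · intro _
        exact hp0'
      · have h4 : (Matrix.of fun _ _ : Fin 1 => eval P (pderiv i p)).det ≠ 0 := by
          rw [Matrix.det_fin_one, Matrix.of_apply]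
          exact hi
        exact h4

end Pool.Agent.Q210.QM
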